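import Pool.Agent.W2helper22.MG.Stm

set_option autoImplicit false

namespace Pool.Agent.W2helper71.MG

open Finset Filter Pool.Agent.W2helper86.LG Pool.Agent.W2helper22.AL Pool.Agent.W2helper22.MG

theorem prob_le_sum {S : Type} [Fintype S] {K : ℕ} (p : S → Bool) (q : Fin K → S → Bool)
    (h : ∀ s, p s = true → ∃ j, q j s = true) : prob p ≤ ∑ j, prob (q j) := by
  classical
  unfold prob
  rw [← Finset.sum_div]
  apply div_le_div_of_nonneg_right _ (Nat.cast_nonneg _)
  rw [← Nat.cast_sum]
  have h1 : (univ.filter fun s => p s = true) ⊆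
      univ.biUnion fun j : Fin K => univ.filter fun s => q j s = true := by
    intro s hs
    obtain ⟨j, hj⟩ := h s (mem_filter.mp hs).2
    exact mem_biUnion.mpr ⟨j, mem_univ _, mem_filter.mpr ⟨mem_univ _, hj⟩⟩
  exact_mod_cast (card_le_card h1).trans card_biUnion_le

theorem prob_mono' {S : Type} [Fintype S] (p q : S → Bool)
    (h : ∀ s, p s = true → q s = true) : prob p ≤ prob q := by
  have := prob_le_sum (K := 1) p (fun _ => q) (fun s hs => ⟨0, h s hs⟩)
  simpa using this

theorem prob_le_add {S : Type} [Fintype S] (p q r : S → Bool)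
    (h : ∀ s, p s = true → q s = true ∨ r s = true) : prob p ≤ prob q + prob r := by
  have := prob_le_sum (K := 2) p ![q, r] (fun s hs => by
    rcases h s hs with h | h
    · exact ⟨0, h⟩
    · exact ⟨1, h⟩)
  simpa using this

theorem prob_not {S : Type} [Fintype S] [Nonempty S] (p : S → Bool) :
    prob (fun s => !p s) = 1 - prob p := by
  unfold prob
  have hS : (0 : ℝ) < Fintype.card S := by exact_mod_cast Fintype.card_pos
  have h1 : (univ.filter fun s => p s = true).card + (univ.filter fun s => (!p s) = true).card =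
      Fintype.card S := by
    have h2 := Finset.card_filter_add_card_filter_not (s := (univ : Finset S))
      (fun s => p s = true)
    rw [card_univ] at h2
    rw [← h2]
    congr 2
    ext s
    simp
  have h3 : ((univ.filter fun s => p s = true).card : ℝ) +
      ((univ.filter fun s => (!p s) = true).card : ℝ) = Fintype.card S := by
    exact_mod_cast h1
  rw [eq_sub_iff_add_eq, ← add_div, add_comm, h3, div_self hS.ne']

theorem beta : P_BETA := by
  intro hC S _ _ b B M K π G F α δ hπ hδ hB hU hL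
  have hcheb : ∀ j, prob (fun x : Fin M → Bool =>
      decide (δ * B ≤ |(cnt π (F j) x : ℝ) - prob (F j) * B|)) ≤ 1 / (4 * δ ^ 2 * B) :=
    fun j => hC b B M π (F j) δ hπ hδ hB
  have hsum : ∑ j : Fin K, prob (fun x : Fin M → Bool =>
      decide (δ * B ≤ |(cnt π (F j) x : ℝ) - prob (F j) * B|)) ≤ K * (1 / (4 * δ ^ 2 * B)) := by
    refine (Finset.sum_le_sum fun j _ => hcheb j).trans (le_of_eq ?_)
    rw [Finset.sum_const, card_univ, Fintype.card_fin, nsmul_eq_mul]
  have h1 : prob (fun x : Fin M → Bool =>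
      decide (∃ j, ⌈(prob (F j) + δ) * B⌉₊ ≤ cnt π (F j) x)) ≤ K * (1 / (4 * δ ^ 2 * B)) := by
    refine (prob_le_sum _ _ fun x hx => ?_).trans hsum
    obtain ⟨j, hj⟩ := of_decide_eq_true hx
    refine ⟨j, decide_eq_true ?_⟩
    have h2 := Nat.ceil_le.mp hj
    have h3 : δ * B ≤ (cnt π (F j) x : ℝ) - prob (F j) * B := by linarith
    exact h3.trans (le_abs_self _)
  have h2 : 1 - prob (fun x : Fin M → Bool =>
      decide (∀ j, ⌈(prob (F j) - δ) * B⌉₊ ≤ cnt π (F j) x)) ≤ K * (1 / (4 * δ ^ 2 * B)) := by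
    rw [← prob_not]
    refine (prob_le_sum _ _ fun x hx => ?_).trans hsum
    have hx' : ¬ ∀ j, ⌈(prob (F j) - δ) * B⌉₊ ≤ cnt π (F j) x := by
      intro hcon
      rw [decide_eq_true hcon] at hx
      exact absurd hx (by decide)
    push Not at hx'
    obtain ⟨j, hj⟩ := hx'
    refine ⟨j, decide_eq_true ?_⟩
    have h2 := Nat.lt_ceil.mp hj
    have h3 : δ * B ≤ -((cnt π (F j) x : ℝ) - prob (F j) * B) := by linarith
    exact h3.trans (neg_le_abs _)
  have h3 : prob (fun s : S =>
      decide (∃ j, δ * B < |(cnt π (F j) (G s) : ℝ) - prob (F j) * B|)) ≤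
      prob (fun s : S => decide (∃ j, ⌈(prob (F j) + δ) * B⌉₊ ≤ cnt π (F j) (G s))) +
      prob (fun s : S => !decide (∀ j, ⌈(prob (F j) - δ) * B⌉₊ ≤ cnt π (F j) (G s))) := by
    apply prob_le_add
    intro s hs
    obtain ⟨j, hj⟩ := of_decide_eq_true hs
    rcases lt_abs.mp hj with h | h
    · left
      refine decide_eq_true ⟨j, Nat.ceil_le.mpr ?_⟩
      linarith
    · right
      have h4 : ¬ ∀ j, ⌈(prob (F j) - δ) * B⌉₊ ≤ cnt π (F j) (G s) := by
        intro hcon
        have h5 := Nat.ceil_le.mp (hcon j)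
        linarith
      rw [decide_eq_false h4]
      rfl
  rw [prob_not] at h3
  have h4 := (abs_le.mp hU).2
  have h5 := (abs_le.mp hL).1
  have h6 : (K : ℝ) / (2 * δ ^ 2 * B) = 2 * (K * (1 / (4 * δ ^ 2 * B))) := by
    have hB' : (0 : ℝ) < B := by exact_mod_cast hB
    field_simp
    ring
  rw [h6]
  linarith

end Pool.Agent.W2helper71.MG
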